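import Pool.Agent.H33.Flow1

set_option autoImplicit false

namespace Pool.Agent.Results.MP_a73859_co.Q1

open Pool.Agent.H33.Flow SimpleGraph

def EL : List (Fin 12 × Fin 12) := [(1, 11), (1, 7), (7, 11), (1, 10), (10, 11), (7, 10), (0, 1),
  (0, 11), (0, 7), (0, 10), (5, 7), (5, 10), (2, 7), (0, 2), (2, 5), (6, 10), (0, 6), (5, 6), (2, 6),
  (0, 4), (4, 6), (0, 3), (2, 3), (3, 4), (2, 8), (6, 8), (3, 8), (6, 9), (4, 9), (8, 9)]

def adj (u v : Fin 12) : Bool := EL.contains (u, v) || EL.contains (v, u)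

def G : SimpleGraph (Fin 12) where
  Adj u v := adj u v = true
  symm := ⟨fun u v h => by simpa [adj, or_comm] using h⟩
  loopless := ⟨by decide +kernel⟩

lemma nd : (EL.map fun e => s(e.1, e.2)).Nodup := by decide +kernel

lemma edges : G.edgeSet.toFinite.toFinset = (EL.map fun e => s(e.1, e.2)).toFinset := by
  ext e
  induction e using Sym2.ind with | _ u v => ?_
  simp only [Set.Finite.mem_toFinset, mem_edgeSet, G, adj, Bool.or_eq_true, List.contains_iff_mem,
    List.mem_toFinset, List.mem_map, Sym2.eq_iff]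
  constructor
  · rintro (h | h)
    · exact ⟨_, h, Or.inl ⟨rfl, rfl⟩⟩
    · exact ⟨_, h, Or.inr ⟨rfl, rfl⟩⟩
  · rintro ⟨⟨a, b⟩, h, ⟨rfl, rfl⟩ | ⟨rfl, rfl⟩⟩
    · exact Or.inl h
    · exact Or.inr h

lemma flow_eq (q : ℝ) (hq : 0 < q) : flow G q = hh (q - 1) 1 EL Fin.val := by
  have h := sum_eq q EL nd ∅ Fin.val (ker_empty _ Fin.val_injective)
  rw [Finset.card_image_of_injective _ Fin.val_injective, Finset.card_univ, Fintype.card_fin] at h
  have hc : G.edgeSet.ncard = EL.length := by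
    rw [Set.ncard_eq_toFinset_card _ G.edgeSet.toFinite, edges, List.toFinset_card_of_nodup nd,
      List.length_map]
  apply mul_left_cancel₀ (pow_ne_zero 12 hq.ne')
  rw [← h, flow, edges, hc, Finset.mul_sum]
  refine Finset.sum_congr rfl fun A _ => ?_
  rw [Set.empty_union, mul_left_comm, ← zpow_natCast q 12, ← zpow_add₀ hq.ne',
    ← zpow_natCast q (A.card + _)]
  congr 2
  push_cast
  ring

def NL : List (ℕ × ℕ) := EL.map fun e => (e.1.val, e.2.val)

lemma hh_run (x y : ℤ) : hh x y EL Fin.val = run 12 x y NL [(List.range 12, 1)] := by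
  rw [run_eq 12 x y NL (by decide +kernel), NL]
  simp only [val, List.map_cons, List.map_nil, List.sum_cons, List.sum_nil, one_mul, add_zero]
  rw [hh_map Fin.val]
  congr 1
  funext v
  revert v
  decide +kernel

lemma r1 : 0 < run 12 1 2 NL [(List.range 12, 1)] := by decide +kernel
lemma r2 : run 12 49 50 NL [(List.range 12, 1)] < 0 := by decide +kernel

lemma pos : 0 < hh ((3 / 2 : ℝ) - 1) 1 EL Fin.val := by
  have h := hh_scale ((3 / 2 : ℝ) - 1) 2 EL Fin.val
  have h2 := hh_cast 1 2 EL Fin.val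
  rw [hh_run] at h2
  have h3 : (0 : ℝ) < (run 12 1 2 NL [(List.range 12, 1)] : ℤ) := by exact_mod_cast r1
  rw [h2] at h3
  norm_num at h h3
  rw [h] at h3
  norm_num
  exact (mul_pos_iff_of_pos_left (by positivity)).1 h3

lemma neg : hh ((99 / 50 : ℝ) - 1) 1 EL Fin.val < 0 := by
  have h := hh_scale ((99 / 50 : ℝ) - 1) 50 EL Fin.val
  have h2 := hh_cast 49 50 EL Fin.val
  rw [hh_run] at h2
  have h3 : ((run 12 49 50 NL [(List.range 12, 1)] : ℤ) : ℝ) < 0 := by exact_mod_cast r2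
  rw [h2] at h3
  norm_num at h h3
  rw [h] at h3
  norm_num
  by_contra hc
  exact absurd h3 (not_lt.2 (mul_nonneg (by positivity) (not_lt.1 hc)))

lemma conn : ∀ a b : Fin 13, ∃ r : Fin 12, (r.val ≠ a.val ∧ r.val ≠ b.val) ∧ ∀ v : Fin 12,
    (v.val ≠ a.val ∧ v.val ≠ b.val) →
    v ∈ (grow adj fun v => decide (v.val ≠ a.val ∧ v.val ≠ b.val))^[5] [r] := by decide +kernel

lemma three : ThreeConnected G := by
  refine ⟨by norm_num, fun S hS => ?_⟩
  obtain ⟨a, b, hab⟩ : ∃ a b : Fin 13, ∀ v : Fin 12,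
      v ∈ ((S : Set (Fin 12))ᶜ) ↔ (v.val ≠ a.val ∧ v.val ≠ b.val) := by
    have h0 : S.card = 0 ∨ S.card = 1 ∨ S.card = 2 := by omega
    rcases h0 with h | h | h
    · rw [Finset.card_eq_zero] at h
      exact ⟨12, 12, fun v => by have := v.2; simp [h]; omega⟩
    · obtain ⟨a, rfl⟩ := Finset.card_eq_one.1 h
      exact ⟨a.castSucc, a.castSucc, fun v => by simp [Fin.ext_iff]⟩
    · obtain ⟨a, b, -, rfl⟩ := Finset.card_eq_two.1 h
      exact ⟨a.castSucc, b.castSucc, fun v => by simp [Fin.ext_iff]⟩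
  obtain ⟨r, hr, h⟩ := conn a b
  have k := grow_reach G adj (fun _ _ h => h) _ _
    (fun v hv => (hab v).2 (of_decide_eq_true hv)) ⟨r, (hab r).2 hr⟩ 5
  have : Nonempty ↥((S : Set (Fin 12))ᶜ) := ⟨⟨r, (hab r).2 hr⟩⟩
  refine ⟨fun u v => ?_⟩
  obtain ⟨_, h1⟩ := k u (h u ((hab u).1 u.2))
  obtain ⟨_, h2⟩ := k v (h v ((hab v).1 v.2))
  exact h1.symm.trans h2

theorem result : ∃ (n : ℕ) (G : SimpleGraph (Fin n)), ThreeConnected G ∧
    (∃ v, Odd (G.neighborSet v).ncard) ∧ ∃ q : ℝ, 1 < q ∧ q < 2 ∧ flow G q = 0 := by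
  refine ⟨12, G, three, ⟨9, ?_⟩, ?_⟩
  · have : G.neighborSet 9 = ({4, 6, 8} : Finset (Fin 12)) := by
      ext v
      simp only [mem_neighborSet, G, Finset.mem_coe]
      revert v
      decide +kernel
    rw [this, Set.ncard_coe_finset]
    decide
  · obtain ⟨q, hq, h⟩ := intermediate_value_Icc' (show (3 / 2 : ℝ) ≤ 99 / 50 by norm_num)
      (hh_cont EL Fin.val).continuousOn ⟨neg.le, pos.le⟩
    refine ⟨q, by linarith [hq.1], by linarith [hq.2], ?_⟩
    rw [flow_eq q (by linarith [hq.1])]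
    exact h

end Pool.Agent.Results.MP_a73859_co.Q1
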